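import Pool.Agent.Q17.AM.Stm2
import Pool.Agent.Q17.WR.Fin
import Pool.Agent.Y63.KR.Chi

/-!
# Project AM (helper17), job KRY
-/

set_option autoImplicit false

open scoped Classical

noncomputable section

namespace Pool.Agent.Q92.AM

open Pool.Agent.Y63.KR Pool.Agent.Q18.KRX
open Pool.Agent.Y63.AWC (IsIrreducibleCharacter numDefectZero)
open Pool.Agent.Q17.WR Pool.Agent.Q17.AM
open Pool.Agent.Helper884.IC (Irr mem_Irr IsIrrChar)

/-- characters of defect zero of an abelian group of order prime to `p` -/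
theorem ndz_comm (p : ℕ) [Fact p.Prime] (H : Type) [CommGroup H] [Finite H] (h : ¬ p ∣ Nat.card H) :
    numDefectZero p H = Nat.card H := by
  have : Fintype H := Fintype.ofFinite H
  rw [numDefectZero_eq_card]
  have h1 : (Irr H).filter (fun chi => ¬ p ∣ cod chi) = Irr H := by
    refine Finset.filter_true_of_mem fun chi hchi hd => h ?_
    rw [← cod_spec (mem_Irr.1 hchi)]
    exact Dvd.dvd.mul_left hd _
  rw [h1]
  have h2 := surfaceCount_eq (G := H) 0
  rw [zero_add, surfaceCount_one] at h2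
  have h3 : zsum 0 H = (Irr H).card := by
    unfold zsum
    simp
  rw [← h3, ← h2]
  refine (Nat.card_congr (Equiv.ofBijective ConjClasses.mk ⟨?_, ?_⟩)).symm
  · intro x y hxy
    rw [ConjClasses.mk_eq_mk_iff_isConj] at hxy
    exact isConj_iff_eq.1 hxy
  · exact ConjClasses.mk_surjective

section

variable (r : ℕ) [hr : Fact r.Prime]

instance : Finite (Cy r) := by
  have : NeZero r := ⟨hr.out.ne_zero⟩
  exact inferInstanceAs (Finite (ZMod r))

omit hr in
theorem card_Cy : Nat.card (Cy r) = r := Nat.card_zmod r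

theorem sub_Cy (S : Subgroup (Cy r)) : S = ⊥ ∨ S = ⊤ := by
  have : Fact (Nat.card (Cy r)).Prime := ⟨by rw [card_Cy]; exact hr.out⟩
  exact S.eq_bot_or_eq_top_of_prime_card

theorem norb_bot : norb (Cy r) (⊥ : Subgroup (Cy r)) = r := by
  refine Eq.trans ?_ (card_Cy r)
  refine (Nat.card_congr (Equiv.ofBijective (Quotient.mk (MulAction.orbitRel (⊥ : Subgroup (Cy r)) (Cy r)))
    ⟨?_, Quotient.mk_surjective⟩)).symm
  intro x y hxy
  obtain ⟨⟨s, hs⟩, h⟩ := Quotient.exact hxy
  rw [Subgroup.mem_bot] at hs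
  subst hs
  rw [← h]
  exact one_smul _ y

theorem norb_top : norb (Cy r) (⊤ : Subgroup (Cy r)) = 1 := by
  unfold norb
  rw [Nat.card_eq_one_iff_unique]
  constructor
  · constructor
    intro a b
    induction a using Quotient.inductionOn with
    | h x =>
      induction b using Quotient.inductionOn with
      | h y =>
        refine Quotient.sound ⟨⟨x * y⁻¹, Subgroup.mem_top _⟩, ?_⟩
        change (x * y⁻¹) * y = x
        rw [inv_mul_cancel_right]
  · exact ⟨Quotient.mk _ 1⟩

theorem stab_top (τ : Set (Subgroup (Cy r))) : chainStabilizer τ = ⊤ := by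
  rw [eq_top_iff]
  intro g _
  rw [mem_chainStabilizer]
  intro P _
  ext x
  rw [mem_conjSub, mul_comm g⁻¹ x, inv_mul_cancel_right]

theorem card_hom (hL : S_LNK) (H : Type) [CommGroup H] [Finite H] :
    Nat.card (Z2 →* H) = Nat.card H ^ 2 := by
  obtain ⟨-, -, e, -⟩ := hL 2 H
  rw [Nat.card_congr e, sq, ← Nat.card_prod]
  exact Nat.card_congr (Equiv.subtypeUnivEquiv fun q => mul_comm _ _)

/-- the sum over the homomorphisms, for a chain with supremum `⊥` -/
theorem sum_bot (hL : S_LNK) (x : ℤ) (τ : Set (Subgroup (Cy r))) (hτ : sSup τ = ⊥) :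
    ∑ᶠ α : Z2 →* chainStabilizer τ,
      x ^ norb (Cy r) (sSup τ ⊔ α.range.map (chainStabilizer τ).subtype) = x ^ r + ((r : ℤ) ^ 2 - 1) * x := by
  have hf : Finite (Z2 →* chainStabilizer τ) := (hL 2 (chainStabilizer τ)).1
  have : Fintype (Z2 →* chainStabilizer τ) := Fintype.ofFinite _
  have hc : Nat.card (Z2 →* chainStabilizer τ) = r ^ 2 := by
    rw [card_hom hL, stab_top, Subgroup.card_top, card_Cy]
  have h1 : ∀ α : Z2 →* chainStabilizer τ,
      x ^ norb (Cy r) (sSup τ ⊔ α.range.map (chainStabilizer τ).subtype) =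
        x + (if α = 1 then x ^ r - x else 0) := by
    intro α
    rw [hτ, bot_sup_eq]
    split_ifs with h
    · have h2 : α.range.map (chainStabilizer τ).subtype = ⊥ := by
        rw [h, MonoidHom.range_one, Subgroup.map_bot]
      rw [h2, norb_bot]
      ring
    · rcases sub_Cy r (α.range.map (chainStabilizer τ).subtype) with h2 | h2
      · exfalso
        apply h
        rw [Subgroup.map_eq_bot_iff_of_injective _ (Subgroup.subtype_injective _)] at h2
        exact MonoidHom.range_eq_bot_iff.1 h2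
      · rw [h2, norb_top, pow_one, add_zero]
  rw [finsum_congr h1, finsum_eq_sum_of_fintype, Finset.sum_add_distrib, Finset.sum_const,
    Finset.sum_ite_eq', if_pos (Finset.mem_univ _), Finset.card_univ, ← Nat.card_eq_fintype_card, hc]
  ring

/-- the sum over the homomorphisms, for a chain with supremum `⊤` -/
theorem sum_top (hL : S_LNK) (x : ℤ) (τ : Set (Subgroup (Cy r))) (hτ : sSup τ = ⊤) :
    ∑ᶠ α : Z2 →* chainStabilizer τ,
      x ^ norb (Cy r) (sSup τ ⊔ α.range.map (chainStabilizer τ).subtype) = (r : ℤ) ^ 2 * x := by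
  have hf : Finite (Z2 →* chainStabilizer τ) := (hL 2 (chainStabilizer τ)).1
  have : Fintype (Z2 →* chainStabilizer τ) := Fintype.ofFinite _
  have hc : Nat.card (Z2 →* chainStabilizer τ) = r ^ 2 := by
    rw [card_hom hL, stab_top, Subgroup.card_top, card_Cy]
  have h1 : ∀ α : Z2 →* chainStabilizer τ,
      x ^ norb (Cy r) (sSup τ ⊔ α.range.map (chainStabilizer τ).subtype) = x := by
    intro α
    rw [hτ, top_sup_eq, norb_top, pow_one]
  rw [finsum_congr h1, finsum_eq_sum_of_fintype, Finset.sum_const, Finset.card_univ,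
    ← Nat.card_eq_fintype_card, hc]
  ring

/-- the chains -/
theorem chains (p : ℕ) [hp : Fact p.Prime] (τ : Set (Subgroup (Cy r))) (h : IsPChain p τ) :
    τ = ∅ ∨ (τ = {⊤} ∧ p = r) := by
  rcases τ.eq_empty_or_nonempty with h0 | ⟨P, hP⟩
  · exact Or.inl h0
  · have h1 : ∀ Q ∈ τ, Q = ⊤ := fun Q hQ => (sub_Cy r Q).resolve_left (h.ne_bot Q hQ)
    refine Or.inr ⟨Set.Subset.antisymm (fun Q hQ => h1 Q hQ) ?_, ?_⟩
    · intro Q hQ
      rw [Set.mem_singleton_iff] at hQ
      rw [hQ, ← h1 P hP]
      exact hP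
    · have h2 := h.isPGroup P hP
      rw [h1 P hP] at h2
      obtain ⟨n, hn⟩ := IsPGroup.iff_card.1 h2
      rw [Subgroup.card_top, card_Cy] at hn
      have h3 : r ∣ p := hr.out.dvd_of_dvd_pow (n := n) (dvd_of_eq hn)
      exact ((Nat.prime_dvd_prime_iff_eq hr.out hp.out).1 h3).symm

theorem chain_empty (p : ℕ) : IsPChain p (∅ : Set (Subgroup (Cy r))) :=
  ⟨IsChain.empty, fun P hP => absurd hP (Set.notMem_empty P),
    fun P hP => absurd hP (Set.notMem_empty P)⟩

theorem chain_top : IsPChain r ({⊤} : Set (Subgroup (Cy r))) := by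
  refine ⟨IsChain.singleton, ?_, ?_⟩
  · intro P hP
    rw [Set.mem_singleton_iff.1 hP]
    refine IsPGroup.of_card (n := 1) ?_
    rw [Subgroup.card_top, card_Cy, pow_one]
  · intro P hP
    rw [Set.mem_singleton_iff.1 hP]
    intro h
    have h1 := congrArg (fun S : Subgroup (Cy r) => Nat.card S) h
    simp only [Subgroup.card_top, Subgroup.card_bot, card_Cy] at h1
    exact hr.out.one_lt.ne' h1

/-- the polynomial of the cyclic group of order `r` -/
theorem wp_Cy (hL : S_LNK) (p : ℕ) [hp : Fact p.Prime] (x : ℤ) :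
    WP p (Cy r) (Cy r) x = x ^ r + (if p = r then -1 else (r : ℤ) ^ 2 - 1) * x := by
  have hf : Finite {τ : Set (Subgroup (Cy r)) // IsPChain p τ} := Subtype.finite
  have : Fintype {τ : Set (Subgroup (Cy r)) // IsPChain p τ} := Fintype.ofFinite _
  unfold WP
  have h0 : (-1 : ℤ) ^ (∅ : Set (Subgroup (Cy r))).ncard * ∑ᶠ α : Z2 →* chainStabilizer (∅ : Set (Subgroup (Cy r))),
      x ^ norb (Cy r) (sSup ∅ ⊔ α.range.map (chainStabilizer (∅ : Set (Subgroup (Cy r)))).subtype) =
        x ^ r + ((r : ℤ) ^ 2 - 1) * x := by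
    rw [sum_bot r hL x ∅ sSup_empty, Set.ncard_empty, pow_zero, one_mul]
  by_cases h : p = r
  · subst h
    rw [if_pos rfl, finsum_eq_sum_of_fintype]
    have h1 : (Finset.univ : Finset {τ : Set (Subgroup (Cy p)) // IsPChain p τ}) =
        {⟨∅, chain_empty p p⟩, ⟨{⊤}, chain_top p⟩} := by
      ext τ
      simp only [Finset.mem_univ, Finset.mem_insert, Finset.mem_singleton, true_iff]
      rcases chains p p τ.1 τ.2 with h2 | ⟨h2, -⟩
      · exact Or.inl (Subtype.ext h2)
      · exact Or.inr (Subtype.ext h2)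
    have h2 : (⟨∅, chain_empty p p⟩ : {τ : Set (Subgroup (Cy p)) // IsPChain p τ}) ≠ ⟨{⊤}, chain_top p⟩ := by
      intro h3
      have h4 := congrArg Subtype.val h3
      simp only at h4
      exact (Set.singleton_ne_empty _) h4.symm
    rw [h1, Finset.sum_pair h2, h0, sum_top p hL x {⊤} (by rw [sSup_singleton]), Set.ncard_singleton]
    ring
  · rw [if_neg h]
    have h1 : ∀ τ : {τ : Set (Subgroup (Cy r)) // IsPChain p τ}, τ = ⟨∅, chain_empty r p⟩ := by
      intro τ
      rcases chains r p τ.1 τ.2 with h2 | ⟨-, h2⟩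
      · exact Subtype.ext h2
      · exact absurd h2 h
    rw [finsum_eq_single _ (⟨∅, chain_empty r p⟩ : {τ : Set (Subgroup (Cy r)) // IsPChain p τ})
      (fun τ hτ => absurd (h1 τ) hτ)]
    exact h0

/-- the stabilisers of functions -/
theorem Sf_const {X : Type} (c : X) : Sf (A := Cy r) (fun _ : Cy r => c) = ⊤ := by
  rw [eq_top_iff]
  intro a _ ω
  rfl

theorem Sf_ncn {X : Type} (f : Cy r → X) (hf : ¬ ∃ c, f = fun _ => c) : Sf (A := Cy r) f = ⊥ := by
  refine (sub_Cy r _).resolve_right fun h => hf ⟨f 1, ?_⟩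
  funext ω
  have h1 : ω ∈ Sf (A := Cy r) f := by
    rw [h]
    exact Subgroup.mem_top _
  have h2 := h1 1
  rwa [smul_eq_mul, mul_one] at h2

theorem ndz_bot (p : ℕ) [Fact p.Prime] : numDefectZero p (⊥ : Subgroup (Cy r)) = 1 := by
  rw [ndz_comm p (⊥ : Subgroup (Cy r)), Subgroup.card_bot]
  rw [Subgroup.card_bot]
  exact (Fact.out : p.Prime).one_lt.ne' ∘ Nat.dvd_one.1

theorem ndz_top (p : ℕ) [hp : Fact p.Prime] : numDefectZero p (⊤ : Subgroup (Cy r)) = if p = r then 0 else r := by
  split_ifs with h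
  · subst h
    refine defectZero_normal (P := (⊤ : Subgroup (⊤ : Subgroup (Cy p)))) ?_ inferInstance ?_
    · refine IsPGroup.of_card (n := 1) ?_
      rw [Subgroup.card_top, Subgroup.card_top, card_Cy, pow_one]
    · intro h
      have h1 := congrArg (fun S : Subgroup (⊤ : Subgroup (Cy p)) => Nat.card S) h
      simp only [Subgroup.card_top, Subgroup.card_bot, card_Cy] at h1
      exact hr.out.one_lt.ne' h1
  · rw [ndz_comm p (⊤ : Subgroup (Cy r)), Subgroup.card_top, card_Cy]
    rw [Subgroup.card_top, card_Cy]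
    intro h1
    exact h ((Nat.prime_dvd_prime_iff_eq hp.out hr.out).1 h1)

end

theorem t_KRY : S_LNK → S_RED → S_TRF → S_COC → S_ZED → S_KRY := by
  intro hL hR hT hC hZ p r _ hr G _ _
  constructor
  · have h1 := kr_wr p G (Cy r) (Cy r) hL hR hT hC
    rw [card_Cy, wp_Cy r hL] at h1
    exact h1
  · have h1 := hZ p G (Cy r) (Cy r)
    rw [card_Cy] at h1
    have : Fintype G := Fintype.ofFinite G
    have hf : Finite (DZt p G) := by
      refine Finite.of_injective (β := {χ : G → ℂ // χ ∈ Irr G})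
        (fun χ => ⟨χ.1, mem_Irr.2 χ.2.1⟩) ?_
      intro a b hab
      exact Subtype.ext (congrArg (fun c => c.1) hab)
    have hft : Fintype (DZt p G) := Fintype.ofFinite _
    have hz : numDefectZero p G = Fintype.card (DZt p G) := by
      rw [← Nat.card_eq_fintype_card]
      rfl
    rw [h1]
    obtain ⟨v, hv⟩ : ∃ v : ℤ, v = (if p = r then -1 else (r : ℤ) ^ 2 - 1) := ⟨_, rfl⟩
    rw [← hv]
    have h2 : ∀ f : Cy r → DZt p G,
        (Nat.card (Sf (A := Cy r) f) : ℤ) * (numDefectZero p (Sf (A := Cy r) f) : ℤ) =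
          1 + (if ∃ c, f = fun _ => c then v else 0) := by
      intro f
      split_ifs with h
      · obtain ⟨c, rfl⟩ := h
        rw [Sf_const, Subgroup.card_top, card_Cy, ndz_top, hv]
        split_ifs
        · push_cast
          ring
        · ring
      · rw [Sf_ncn r f h, ndz_bot, Subgroup.card_bot]
        norm_num
    rw [finsum_congr h2, finsum_eq_sum_of_fintype, Finset.sum_add_distrib, Finset.sum_const,
      Finset.card_univ, ← Finset.sum_filter, Finset.sum_const]
    have h3 : (Finset.univ.filter fun f : Cy r → DZt p G => ∃ c, f = fun _ => c) =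
        Finset.univ.image fun c : DZt p G => (fun _ => c : Cy r → DZt p G) := by
      ext f
      simp only [Finset.mem_filter, Finset.mem_univ, true_and, Finset.mem_image]
      constructor
      · rintro ⟨c, hc⟩
        exact ⟨c, hc.symm⟩
      · rintro ⟨c, hc⟩
        exact ⟨c, hc.symm⟩
    rw [h3, Finset.card_image_of_injective _ (fun a b hab => congrFun hab 1), Finset.card_univ, hz]
    have h4 : Fintype.card (Cy r → DZt p G) = Fintype.card (DZt p G) ^ r := by
      rw [← Nat.card_eq_fintype_card, Nat.card_fun, card_Cy, Nat.card_eq_fintype_card]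
    rw [h4]
    simp only [nsmul_eq_mul]
    push_cast
    ring

end Pool.Agent.Q92.AM
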